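import Pool.Agent.L7h88.TS.Stm
import Pool.Agent.L7h50.TS.V1

/-!
# TRI and CNT of project TS
-/

set_option autoImplicit false

namespace Pool.Agent.L7h30.TS

open Finset Pool.Agent.L7h88.TS
open Pool.Agent.H373R2.T7 (lamz Vz pz)

theorem ev_lp (z m : ℕ) : ev Pool.Agent.L7h88.TS.lp m = ev (gz z) m + ev (lamz z) m := by
  unfold ev gz
  split_ifs
  · ring
  · ring

theorem tri_split (z P n w : ℕ) : tri Pool.Agent.L7h88.TS.lp Pool.Agent.L7h88.TS.lp Pool.Agent.L7h88.TS.lp P n w =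
    tri Pool.Agent.L7h88.TS.lp Pool.Agent.L7h88.TS.lp (gz z) P n w +
      tri Pool.Agent.L7h88.TS.lp (gz z) (lamz z) P n w +
      tri Pool.Agent.L7h88.TS.lp (lamz z) (lamz z) P n w := by
  unfold tri
  rw [← sum_add_distrib, ← sum_add_distrib]
  refine sum_congr rfl fun p _ => ?_
  have h1 := ev_lp z (n - p * (w - p))
  have h2 : Pool.Agent.L7h88.TS.lp (w - p) = gz z (w - p) + lamz z (w - p) := by unfold gz; ring
  rw [h1, mul_add]
  have h3 : Pool.Agent.L7h88.TS.lp p * Pool.Agent.L7h88.TS.lp (w - p) * ev (lamz z) (n - p * (w - p)) =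
      Pool.Agent.L7h88.TS.lp p * gz z (w - p) * ev (lamz z) (n - p * (w - p)) +
      Pool.Agent.L7h88.TS.lp p * lamz z (w - p) * ev (lamz z) (n - p * (w - p)) := by
    rw [h2]; ring
  rw [h3]
  ring

open Classical in
theorem s_TRI (R : ℕ → ℕ → Prop) (h1 : S_V1) (h2 : S_V2 R) (h3 : S_LOW) : S_TRI R := by
  intro A
  obtain ⟨B1, hB1⟩ := h1 (A + 3)
  obtain ⟨B2, hB2⟩ := h2 (A + 3)
  set B := max B1 B2 + 1 with hB
  obtain ⟨X₁, hX₁⟩ := hB1 (B + 1)
  obtain ⟨X₂, hX₂⟩ := hB2 (B + 1)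
  obtain ⟨X₃, hX₃⟩ := h3 (B + 1)
  have hlim : Filter.Tendsto (fun N : ℕ => Real.log (N : ℝ)) Filter.atTop Filter.atTop :=
    Real.tendsto_log_atTop.comp (tendsto_natCast_atTop_atTop (R := ℝ))
  obtain ⟨X₄, hX₄⟩ := Filter.eventually_atTop.1 (hlim.eventually_ge_atTop 32)
  refine ⟨max (max X₁ X₂) (max X₃ (max X₄ 1)), fun X W P hX hPar hR => ?_⟩
  have e1 : X₁ ≤ X := le_trans (by simp) hX
  have e2 : X₂ ≤ X := le_trans (by simp) hX
  have e3 : X₃ ≤ X := le_trans (by simp) hX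
  have e4 : X₄ ≤ X := le_trans (by simp) hX
  have e5 : 1 ≤ X := le_trans (by simp) hX
  set L := Real.log (X : ℝ) with hL
  have hL32 : 32 ≤ L := hX₄ X e4
  have hL1 : 1 ≤ L := by linarith
  have hL0 : 0 < L := by linarith
  set z := ⌈L ^ B⌉₊ with hz
  have hzge : L ^ B ≤ z := Nat.le_ceil _
  have hzle : (z : ℝ) ≤ L ^ (B + 1) := by
    have h := Nat.ceil_lt_add_one (show 0 ≤ L ^ B by positivity)
    rw [← hz] at h
    have h4 : 1 ≤ L ^ B := one_le_pow₀ hL1
    have h5 : L ^ (B + 1) = L ^ B * L := pow_succ _ _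
    nlinarith
  have hLB : L ≤ L ^ B := by
    calc L = L ^ 1 := (pow_one _).symm
      _ ≤ L ^ B := pow_le_pow_right₀ hL1 (by omega)
  have hz2 : 2 ≤ z := by
    have : (2 : ℝ) ≤ z := by linarith
    exact_mod_cast this
  have hP0' : 0 < P := by
    have h16 := hPar.h16
    rcases Nat.eq_zero_or_pos P with h | h
    · subst h; simp at h16; omega
    · exact h
  have hP0 : (0 : ℝ) < P := by exact_mod_cast hP0'
  have hV1 := hX₁ X W P z e1 hPar ((pow_le_pow_right₀ hL1 (by omega)).trans hzge) hzle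
  have hV2 := hX₂ X W P z e2 hPar hR ((pow_le_pow_right₀ hL1 (by omega)).trans hzge) hzle
  set t1 : ℕ × ℕ → ℝ := fun x => tri Pool.Agent.L7h88.TS.lp Pool.Agent.L7h88.TS.lp (gz z) P x.1 x.2 with ht1
  set t2 : ℕ × ℕ → ℝ := fun x => tri Pool.Agent.L7h88.TS.lp (gz z) (lamz z) P x.1 x.2 with ht2
  set S := (Ioc (X / 2) X ×ˢ Ioc (W / 2) W).filter (fun x : ℕ × ℕ => Com x.1 x.2 ∧
    tri Pool.Agent.L7h88.TS.lp Pool.Agent.L7h88.TS.lp Pool.Agent.L7h88.TS.lp P x.1 x.2 <
      P / (2 * Real.log X)) with hS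
  have hpt : ∀ x ∈ S, (P : ℝ) ^ 2 / (16 * L ^ 2) ≤ t1 x ^ 2 + t2 x ^ 2 := by
    intro x hx
    rw [hS, mem_filter, mem_product] at hx
    obtain ⟨⟨hx1, hx2⟩, hcom, hlt⟩ := hx
    have hlow := hX₃ X W P z x.1 x.2 e3 hPar hz2 hzle hx1 hx2 hcom
    rw [tri_split z] at hlt
    have h4 : t1 x + t2 x < P / (2 * L) - P / L := by
      simp only [ht1, ht2]
      linarith
    have h5 : (P : ℝ) / (2 * L) - P / L = - (P / (2 * L)) := by field_simp; ring
    rw [h5] at h4
    have h6 : (P : ℝ) ^ 2 / (16 * L ^ 2) = (P / (4 * L)) ^ 2 := by field_simp; ring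
    have h7 : (P : ℝ) / (2 * L) = P / (4 * L) + P / (4 * L) := by field_simp; ring
    have hpos : 0 < (P : ℝ) / (4 * L) := by positivity
    rw [h6]
    rcases lt_or_ge (t1 x) (-(P / (4 * L))) with h | h
    · have : (P / (4 * L)) ^ 2 ≤ t1 x ^ 2 := by nlinarith
      have := sq_nonneg (t2 x)
      linarith
    · have h8 : t2 x < -(P / (4 * L)) := by linarith
      have : (P / (4 * L)) ^ 2 ≤ t2 x ^ 2 := by nlinarith
      have := sq_nonneg (t1 x)
      linarith
  have hs1 : ∑ x ∈ S, t1 x ^ 2 ≤ (P : ℝ) ^ 2 * W * X / L ^ (A + 3) := by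
    refine le_trans ?_ hV1
    rw [sum_comm, ← sum_product']
    exact sum_le_sum_of_subset_of_nonneg (filter_subset _ _) fun x _ _ => sq_nonneg _
  have hs2 : ∑ x ∈ S, t2 x ^ 2 ≤ (P : ℝ) ^ 2 * W * X / L ^ (A + 3) := by
    refine le_trans ?_ hV2
    rw [sum_comm, ← sum_product']
    refine sum_le_sum_of_subset_of_nonneg ?_ fun x _ _ => sq_nonneg _
    intro x hx
    rw [hS, mem_filter, mem_product] at hx
    obtain ⟨⟨hx1, hx2⟩, ⟨hc1, hc2, -⟩, -⟩ := hx
    rw [mem_product, mem_filter, mem_filter]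
    exact ⟨⟨hx1, hc1⟩, hx2, by omega⟩
  have hcard : (S.card : ℝ) * ((P : ℝ) ^ 2 / (16 * L ^ 2)) ≤ 2 * ((P : ℝ) ^ 2 * W * X / L ^ (A + 3)) := by
    calc _ = ∑ x ∈ S, (P : ℝ) ^ 2 / (16 * L ^ 2) := by rw [sum_const, nsmul_eq_mul]
      _ ≤ ∑ x ∈ S, (t1 x ^ 2 + t2 x ^ 2) := sum_le_sum hpt
      _ = ∑ x ∈ S, t1 x ^ 2 + ∑ x ∈ S, t2 x ^ 2 := sum_add_distrib
      _ ≤ _ := by linarith
  have hfin : (S.card : ℝ) ≤ X * W / L ^ A * (32 / L) := by
    have h4 : (0 : ℝ) < (P : ℝ) ^ 2 / (16 * L ^ 2) := by positivity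
    rw [← mul_le_mul_iff_left₀ h4]
    refine hcard.trans (le_of_eq ?_)
    field_simp
    ring
  refine hfin.trans ?_
  have h5 : 32 / L ≤ 1 := by rw [div_le_one hL0]; exact hL32
  calc _ ≤ (X : ℝ) * W / L ^ A * 1 := by gcongr
    _ = _ := mul_one _

theorem s_CNT : S_CNT := by
  have hlim : Filter.Tendsto (fun N : ℕ => Real.log (N : ℝ)) Filter.atTop Filter.atTop :=
    Real.tendsto_log_atTop.comp (tendsto_natCast_atTop_atTop (R := ℝ))
  obtain ⟨X₁, hX₁⟩ := Filter.eventually_atTop.1 (hlim.eventually_ge_atTop 1)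
  obtain ⟨X₂, hX₂⟩ := Pool.Agent.L7h50.TS.ev_pow 0 64
  refine ⟨max (max X₁ X₂) 64, fun X W P n w q hX hPar hn hw hq htri => ?_⟩
  classical
  have e1 : X₁ ≤ X := le_trans (by simp) hX
  have e2 : X₂ ≤ X := le_trans (by simp) hX
  have e3 : 64 ≤ X := le_trans (by simp) hX
  set L := Real.log (X : ℝ) with hL
  have hL1 : 1 ≤ L := hX₁ X e1
  have hL0 : 0 < L := by linarith
  have hP4 : 4 ≤ P := by
    have h1 := hX₂ X e2
    have h2 := Pool.Agent.L7h50.TS.Par.P_ge hPar (by omega)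
    have : (4 : ℝ) ≤ P := by
      rw [pow_zero] at h1
      linarith
    exact_mod_cast this
  rw [mem_Ioc] at hn hw
  have h8 := hPar.h8
  have h4 := hPar.h4
  have hWX : W ≤ X := by
    have e2 : W * 1 ≤ W * P := Nat.mul_le_mul_left _ (by omega)
    omega
  set S := (Ioc (P / 2) P).filter (fun p => p.Prime ∧ (w - p).Prime ∧ Even (n - p * (w - p)) ∧
    ((n - p * (w - p)) / 2).Prime) with hS
  have hu : ∀ p ∈ Ioc (P / 2) P, 8 * (p * (w - p)) ≤ X := by
    intro p hp
    rw [mem_Ioc] at hp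
    have : p * (w - p) ≤ P * W := Nat.mul_le_mul hp.2 (by omega)
    calc 8 * (p * (w - p)) ≤ 8 * (P * W) := by omega
      _ = 8 * (W * P) := by ring
      _ ≤ X := h8
  have hterm : ∀ p ∈ Ioc (P / 2) P, Pool.Agent.L7h88.TS.lp p * Pool.Agent.L7h88.TS.lp (w - p) *
      ev Pool.Agent.L7h88.TS.lp (n - p * (w - p)) ≤
      if (p.Prime ∧ (w - p).Prime ∧ Even (n - p * (w - p)) ∧ ((n - p * (w - p)) / 2).Prime) then L ^ 3
        else 0 := by
    intro p hp
    have hp' := hp
    rw [mem_Ioc] at hp'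
    have b1 := Pool.Agent.L7h50.TS.lp_nonneg p
    have b2 := Pool.Agent.L7h50.TS.lp_nonneg (w - p)
    have b3 : Pool.Agent.L7h88.TS.lp p ≤ L := Pool.Agent.L7h50.TS.lp_le (by omega)
    have b4 : Pool.Agent.L7h88.TS.lp (w - p) ≤ L := Pool.Agent.L7h50.TS.lp_le (by omega)
    have b5 : 0 ≤ ev Pool.Agent.L7h88.TS.lp (n - p * (w - p)) := by
      unfold ev; split_ifs
      · exact Pool.Agent.L7h50.TS.lp_nonneg _
      · exact le_rfl
    have b6 : ev Pool.Agent.L7h88.TS.lp (n - p * (w - p)) ≤ L := by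
      unfold ev; split_ifs
      · exact Pool.Agent.L7h50.TS.lp_le (by omega)
      · exact hL0.le
    split_ifs with h
    · calc _ ≤ L * L * L := by
            refine mul_le_mul (mul_le_mul b3 b4 b2 hL0.le) b6 b5 (by positivity)
        _ = L ^ 3 := by ring
    · apply le_of_eq
      by_cases c1 : p.Prime
      · by_cases c2 : (w - p).Prime
        · have : ev Pool.Agent.L7h88.TS.lp (n - p * (w - p)) = 0 := by
            unfold ev
            split_ifs with c3
            · unfold Pool.Agent.L7h88.TS.lp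
              rw [if_neg]
              exact fun c4 => h ⟨c1, c2, c3, c4⟩
            · rfl
          rw [this, mul_zero]
        · have : Pool.Agent.L7h88.TS.lp (w - p) = 0 := by
            unfold Pool.Agent.L7h88.TS.lp; rw [if_neg c2]
          rw [this, mul_zero, zero_mul]
      · have : Pool.Agent.L7h88.TS.lp p = 0 := by
          unfold Pool.Agent.L7h88.TS.lp; rw [if_neg c1]
        rw [this, zero_mul, zero_mul]
  have hcardS : (P : ℝ) / (2 * L ^ 4) ≤ S.card := by
    have h1 : tri Pool.Agent.L7h88.TS.lp Pool.Agent.L7h88.TS.lp Pool.Agent.L7h88.TS.lp P n w ≤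
        S.card * L ^ 3 := by
      unfold tri
      refine (sum_le_sum hterm).trans (le_of_eq ?_)
      rw [← sum_filter, sum_const, nsmul_eq_mul]
    have h2 := htri.trans h1
    have h3 : (P : ℝ) / (2 * L ^ 4) * L ^ 3 = P / (2 * L) := by field_simp
    rw [← h3] at h2
    exact le_of_mul_le_mul_right h2 (by positivity)
  refine hcardS.trans ?_
  have hinj : S.card ≤ (Kq n q).card := by
    refine card_le_card_of_injOn (fun p => n - p * (w - p)) ?_ ?_
    · intro p hp
      rw [mem_coe, hS, mem_filter] at hp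
      obtain ⟨hpI, hp1, hp2, hp3, hp4⟩ := hp
      have hu' := hu p hpI
      rw [mem_Ioc] at hpI
      rw [mem_coe, Kq, mem_filter, mem_Ico]
      set u := p * (w - p) with hudef
      set p' := (n - u) / 2 with hp'
      have hn2 : n - u = 2 * p' := by
        rw [hp']
        obtain ⟨r, hr⟩ := hp3
        omega
      have hu4 : 4 ≤ u := by
        calc 4 = 2 * 2 := rfl
          _ ≤ p * (w - p) := Nat.mul_le_mul hp1.two_le hp2.two_le
      have hun : u ≤ n := by omega
      have hnu : n - (n - u) = u := by omega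
      have hp'2 : 2 < p' := by omega
      have hφ1 : Nat.totient (n - u) = p' - 1 := by
        have hodd : Odd p' := hp4.odd_of_ne_two (by omega)
        have hc : Nat.Coprime 2 p' := (Nat.coprime_two_left).2 hodd
        rw [hn2, Nat.totient_mul hc, Nat.totient_two, one_mul, Nat.totient_prime hp4]
      have hφ2 : Nat.totient u = (p - 1) * (w - p - 1) := by
        have hne : p ≠ w - p := by omega
        have hc : Nat.Coprime p (w - p) := (Nat.coprime_primes hp1 hp2).2 hne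
        rw [hudef, Nat.totient_mul hc, Nat.totient_prime hp1, Nat.totient_prime hp2]
      change (1 ≤ n - u ∧ n - u < n - 2) ∧
        Nat.totient (n - u) + Nat.totient (n - (n - u)) / 2 + 1 = q
      refine ⟨⟨by omega, by omega⟩, ?_⟩
      rw [hnu, hφ1, hφ2]
      have hpodd : p % 2 = 1 := by
        rcases hp1.eq_two_or_odd with h | h
        · omega
        · exact h
      obtain ⟨a, ha⟩ : ∃ a, p = 2 * a + 1 := ⟨p / 2, by omega⟩
      obtain ⟨b, hb⟩ : ∃ b, w - p = b + 1 := ⟨w - p - 1, by have := hp2.two_le; omega⟩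
      have h1 : (p - 1) * (w - p - 1) = 2 * (a * b) := by
        rw [hb, ha, Nat.add_sub_cancel, Nat.add_sub_cancel]; ring
      have h2 : u = 2 * (a * b) + 2 * a + b + 1 := by
        rw [hudef, hb, ha]; ring
      rw [h1]
      have h3 : 2 * (a * b) / 2 = a * b := by omega
      rw [h3]
      set ab := a * b with hab
      omega
    · intro p hp p2 hp2 h
      rw [mem_coe, hS, mem_filter] at hp hp2
      have hu1 := hu p hp.1
      have hu2 := hu p2 hp2.1
      have hI1 := mem_Ioc.1 hp.1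
      have hI2 := mem_Ioc.1 hp2.1
      have h1 : p * (w - p) = p2 * (w - p2) := by
        simp only at h
        omega
      have h2 : ((p : ℤ) - p2) * ((w : ℤ) - p - p2) = 0 := by
        have h3 : ((p * (w - p) : ℕ) : ℤ) = ((p2 * (w - p2) : ℕ) : ℤ) := by rw [h1]
        rw [Nat.cast_mul, Nat.cast_mul, Nat.cast_sub (by omega), Nat.cast_sub (by omega)] at h3
        linear_combination h3
      rcases mul_eq_zero.1 h2 with h | h
      · omega
      · omega
  exact_mod_cast hinj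

end Pool.Agent.L7h30.TS
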