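import Pool.Agent.L7h30.TS.V2b

/-!
# V2 of project TS
-/

set_option autoImplicit false

namespace Pool.Agent.L7h30.TS

open Finset Pool.Agent.L7h88.TS
open Pool.Agent.H373R2.T7 (lamz Vz pz)

theorem s_V2 (R : ℕ → ℕ → Prop) (hC : S_COR) (hK : S_KAP) (hG : S_GOLD R) : S_V2 R := by
  intro A
  obtain ⟨hCz, C, hC0, hCk⟩ := hK
  obtain ⟨B, hB⟩ := hG (5 * A + 26)
  refine ⟨B + 1, fun E => ?_⟩
  obtain ⟨X₁, h1⟩ := hB E
  obtain ⟨X₂, h2⟩ := hC (A + 8) E
  obtain ⟨X₃, h3⟩ := Pool.Agent.H373R2.T7.Vz_inv_small E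
  obtain ⟨X₄, h4⟩ := Pool.Agent.L7h50.TS.ev_pow (A + 6) 256
  have hlim : Filter.Tendsto (fun N : ℕ => Real.log (N : ℝ)) Filter.atTop Filter.atTop :=
    Real.tendsto_log_atTop.comp (tendsto_natCast_atTop_atTop (R := ℝ))
  obtain ⟨X₅, h5⟩ := Filter.eventually_atTop.1 (hlim.eventually_ge_atTop (16 * C + 2))
  refine ⟨max (max (max X₁ X₂) (max X₃ X₄)) (max X₅ 1), fun X W P z hX hPar hR hzB hzE => ?_⟩
  have hX1 : X₁ ≤ X := le_trans (by simp) hX
  have hX2 : X₂ ≤ X := le_trans (by simp) hX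
  have hX3 : X₃ ≤ X := le_trans (by simp) hX
  have hX4 : X₄ ≤ X := le_trans (by simp) hX
  have hX5 : X₅ ≤ X := le_trans (by simp) hX
  have hX6 : 1 ≤ X := le_trans (by simp) hX
  set L := Real.log (X : ℝ) with hL
  have hL2 : 16 * C + 2 ≤ L := h5 X hX5
  have hLge : 2 ≤ L := by linarith
  have hL1 : 1 ≤ L := by linarith
  have hL0 : 0 < L := by linarith
  have hPr : 16 * L ^ (A + 6) ≤ (P : ℝ) := by
    have e1 := h4 X hX4
    have e2 := Pool.Agent.L7h50.TS.Par.P_ge hPar hX6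
    linarith
  have hP4 : 4 ≤ P := by
    have : (4 : ℝ) ≤ P := by
      have : 1 ≤ L ^ (A + 6) := one_le_pow₀ hL1
      linarith
    exact_mod_cast this
  have hP0 : (0 : ℝ) < P := by exact_mod_cast (by omega : 0 < P)
  have hX0 : (0 : ℝ) < X := by exact_mod_cast hX6
  have hW0' : 0 < W := by have := hPar.h4; omega
  have hW0 : (0 : ℝ) < W := by exact_mod_cast hW0'
  have hWX : W ≤ X := by
    have e1 := hPar.h8
    have e2 : W * 1 ≤ W * P := Nat.mul_le_mul_left _ (by omega)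
    omega
  have hPX : P ≤ X := by
    have e1 := hPar.h4
    omega
  have hz1 : L ≤ z := by
    refine le_trans ?_ hzB
    calc L = L ^ 1 := (pow_one _).symm
      _ ≤ L ^ (B + 1) := pow_le_pow_right₀ hL1 (by omega)
  have hz2 : 2 ≤ z := by
    have : (2 : ℝ) ≤ z := hLge.trans hz1
    exact_mod_cast this
  have hV : (Vz z)⁻¹ ≤ L := h3 X hX3 z (by omega) hzE
  have hzB' : L ^ B ≤ z := le_trans (pow_le_pow_right₀ hL1 (by omega)) hzB
  have hE₀ : 1 ≤ L ^ (2 * A + 12) := one_le_pow₀ hL1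
  have hmain := V2_core X W P z L (L ^ (2 * A + 12)) ((P : ℝ) ^ 2 * W / L ^ (5 * A + 26))
    (C / √(L ^ (2 * A + 12))) (X / L ^ (A + 8)) hPar.h8 hPar.h4 hP4 hL1 hE₀ (by positivity)
    (by positivity) ?_ ?_ ?_ (hCz z hz2).1 (hCz z hz2).2 (hCk z _ hE₀) ?_
  · refine hmain.trans ?_
    have hsq : √(L ^ (2 * A + 12)) = L ^ (A + 6) := by
      rw [show 2 * A + 12 = (A + 6) * 2 by ring, pow_mul, Real.sqrt_sq (by positivity)]
    rw [hsq]
    set D : ℝ := (P : ℝ) ^ 2 * W * X / L ^ A with hD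
    have hD0 : 0 ≤ D := by positivity
    have t1 : (W : ℝ) * P * (4 * L ^ 4) * (X * L ^ 2) ≤ D / 4 := by
      have e1 : (W : ℝ) * P * (4 * L ^ 4) * (X * L ^ 2) =
          (W * P * X / (4 * L ^ A)) * (16 * L ^ (A + 6)) := by
        field_simp
        ring
      rw [e1]
      calc _ ≤ (W * P * X / (4 * L ^ A)) * (P : ℝ) := by gcongr
        _ = D / 4 := by rw [hD]; field_simp
    have t2 : W * (P : ℝ) ^ 2 * (4 * L ^ 4) * (X / L ^ (A + 8)) ≤ D / 4 := by
      have e1 : W * (P : ℝ) ^ 2 * (4 * L ^ 4) * (X / L ^ (A + 8)) = D * (4 / L ^ 4) := by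
        rw [hD]
        field_simp
        ring
      rw [e1]
      have : 4 / L ^ 4 ≤ 1 / 4 := by
        rw [div_le_div_iff₀ (by positivity) (by norm_num)]
        have : (2 : ℝ) ^ 4 ≤ L ^ 4 := pow_le_pow_left₀ (by norm_num) hLge 4
        linarith
      calc _ ≤ D * (1 / 4) := by gcongr
        _ = D / 4 := by ring
    have t3 : X / 2 * ((4 * L ^ 4) * (2 * (P : ℝ) ^ 2 * W) * (C / L ^ (A + 6))) ≤ D / 4 := by
      have e1 : X / 2 * ((4 * L ^ 4) * (2 * (P : ℝ) ^ 2 * W) * (C / L ^ (A + 6))) =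
          D * (4 * C / L ^ 2) := by
        rw [hD]
        field_simp
        ring
      rw [e1]
      have : 4 * C / L ^ 2 ≤ 1 / 4 := by
        rw [div_le_div_iff₀ (by positivity) (by norm_num)]
        nlinarith
      calc _ ≤ D * (1 / 4) := by gcongr
        _ = D / 4 := by ring
    have t4 : X / 2 * ((L ^ (2 * A + 12)) ^ 2 * ((P : ℝ) ^ 2 * W / L ^ (5 * A + 26))) ≤ D / 4 := by
      have e1 : X / 2 * ((L ^ (2 * A + 12)) ^ 2 * ((P : ℝ) ^ 2 * W / L ^ (5 * A + 26))) =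
          D * (1 / (2 * L ^ 2)) := by
        rw [hD, ← pow_mul]
        have e2 : L ^ (5 * A + 26) = L ^ ((2 * A + 12) * 2) * L ^ A * L ^ 2 := by
          rw [← pow_add, ← pow_add]; congr 1; ring
        rw [e2]
        field_simp
      rw [e1]
      have : 1 / (2 * L ^ 2) ≤ 1 / 4 := by
        rw [div_le_div_iff₀ (by positivity) (by norm_num)]
        nlinarith
      calc _ ≤ D * (1 / 4) := by gcongr
        _ = D / 4 := by ring
    have t5 : X / 2 * ((4 * L ^ 4) * (2 * (P : ℝ) ^ 2 * W) * (C / L ^ (A + 6)) +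
        (L ^ (2 * A + 12)) ^ 2 * ((P : ℝ) ^ 2 * W / L ^ (5 * A + 26))) ≤ D / 4 + D / 4 := by
      rw [mul_add]
      exact add_le_add t3 t4
    linarith
  · intro w p hw hp
    rw [abs_mul]
    have e1 : |Pool.Agent.L7h88.TS.lp p| ≤ L := by
      rw [abs_of_nonneg (Pool.Agent.L7h50.TS.lp_nonneg p)]
      exact Pool.Agent.L7h50.TS.lp_le (hp.trans hPX)
    have e2 : |gz z (w - p)| ≤ L := Pool.Agent.L7h50.TS.gz_abs (by omega) hV
    calc _ ≤ L * L := mul_le_mul e1 e2 (abs_nonneg _) hL0.le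
      _ ≤ 2 * L ^ 2 := by nlinarith
  · intro m
    exact (Pool.Agent.L7h50.TS.lamz_le' z m).trans hV
  · intro u u' hu hu' hu8 hu8' hne hd
    exact h2 X z u u' hX2 hz2 hzE hu hu' hu8 hu8' hne hd
  · intro e he heE
    refine h1 X W P z e hX1 hPar hR hzB' hzE he (heE.trans ?_)
    exact pow_le_pow_right₀ hL1 (by omega)

end Pool.Agent.L7h30.TS
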