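import Mathlib

/-!
# Counting lemmas for V2 of project TS
-/

set_option autoImplicit false

namespace Pool.Agent.L7h30.TS

open Finset

theorem cnt_w (W a d : ℕ) :
    (((Ioc (W / 2) W).filter (fun w => a < w ∧ d ∣ w - a)).card : ℝ) ≤ W / d := by
  have h1 : ((Ioc (W / 2) W).filter (fun w => a < w ∧ d ∣ w - a)).card ≤
      ((Ioc 0 W).filter (fun v => d ∣ v)).card := by
    refine card_le_card_of_injOn (fun w => w - a) ?_ ?_
    · intro w hw
      simp only [coe_filter, mem_Ioc, Set.mem_ofPred_eq] at hw ⊢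
      omega
    · intro w hw w' hw' h
      simp only [coe_filter, mem_Ioc, Set.mem_ofPred_eq] at hw hw' h
      omega
  rw [Nat.Ioc_filter_dvd_card_eq_div] at h1
  calc _ ≤ ((W / d : ℕ) : ℝ) := by exact_mod_cast h1
    _ ≤ W / d := Nat.cast_div_le

theorem cnt_p (P p d : ℕ) (hp : p ≤ P) :
    (((Ioc (P / 2) P).filter (fun p' => p ≠ p' ∧ (d : ℤ) ∣ (p : ℤ) - p')).card : ℝ) ≤
      2 * P / d := by
  have h1 : ((Ioc (P / 2) P).filter (fun p' => p ≠ p' ∧ (d : ℤ) ∣ (p : ℤ) - p')).card ≤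
      ((Ioc 0 P).filter (fun v => d ∣ v)).card + ((Ioc 0 P).filter (fun v => d ∣ v)).card := by
    have h2 : (Ioc (P / 2) P).filter (fun p' => p ≠ p' ∧ (d : ℤ) ∣ (p : ℤ) - p') ⊆
        (Ioc (P / 2) P).filter (fun p' => p < p' ∧ (d : ℤ) ∣ (p : ℤ) - p') ∪
        (Ioc (P / 2) P).filter (fun p' => p' < p ∧ (d : ℤ) ∣ (p : ℤ) - p') := by
      intro x hx
      simp only [mem_union, mem_filter, mem_Ioc] at hx ⊢
      rcases lt_or_gt_of_ne hx.2.1 with h | h
      · exact Or.inl ⟨hx.1, h, hx.2.2⟩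
      · exact Or.inr ⟨hx.1, h, hx.2.2⟩
    refine (card_le_card h2).trans ((card_union_le _ _).trans (Nat.add_le_add ?_ ?_))
    · refine card_le_card_of_injOn (fun w => w - p) ?_ ?_
      · intro w hw
        simp only [coe_filter, mem_Ioc, Set.mem_ofPred_eq] at hw ⊢
        refine ⟨by omega, ?_⟩
        rw [← Int.natCast_dvd_natCast, Nat.cast_sub hw.2.1.le, ← neg_sub, dvd_neg]
        exact hw.2.2
      · intro w hw w' hw' h
        simp only [coe_filter, mem_Ioc, Set.mem_ofPred_eq] at hw hw' h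
        omega
    · refine card_le_card_of_injOn (fun w => p - w) ?_ ?_
      · intro w hw
        simp only [coe_filter, mem_Ioc, Set.mem_ofPred_eq] at hw ⊢
        refine ⟨by omega, ?_⟩
        rw [← Int.natCast_dvd_natCast, Nat.cast_sub hw.2.1.le]
        exact hw.2.2
      · intro w hw w' hw' h
        simp only [coe_filter, mem_Ioc, Set.mem_ofPred_eq] at hw hw' h
        omega
  rw [Nat.Ioc_filter_dvd_card_eq_div] at h1
  have h3 : ((P / d : ℕ) : ℝ) ≤ (P : ℝ) / d := Nat.cast_div_le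
  calc _ ≤ ((P / d + P / d : ℕ) : ℝ) := by exact_mod_cast h1
    _ = ((P / d : ℕ) : ℝ) + ((P / d : ℕ) : ℝ) := by push_cast; ring
    _ ≤ (P : ℝ) / d + (P : ℝ) / d := add_le_add h3 h3
    _ = 2 * P / d := by ring

theorem fac (w p p' : ℕ) (hp : p ≤ w) (hp' : p' ≤ w) :
    ((p * (w - p) : ℕ) : ℤ) - ((p' * (w - p') : ℕ) : ℤ) = ((p : ℤ) - p') * ((w : ℤ) - p - p') := by
  rw [Nat.cast_mul, Nat.cast_mul, Nat.cast_sub hp, Nat.cast_sub hp']
  ring

theorem ind_le (W P e w p p' : ℕ) (he : 0 < e) (h4 : 4 * P ≤ W) (hw : W / 2 < w) (hp : p ≤ P)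
    (hp' : p' ≤ P) :
    (if p ≠ p' ∧ (e : ℤ) ∣ ((p * (w - p) : ℕ) : ℤ) - ((p' * (w - p') : ℕ) : ℤ) then (1 : ℝ) else 0) ≤
      ∑ d ∈ e.divisors, (if p ≠ p' ∧ (d : ℤ) ∣ (p : ℤ) - p' then (1 : ℝ) else 0) *
        (if p + p' < w ∧ e / d ∣ w - (p + p') then (1 : ℝ) else 0) := by
  split_ifs with h
  · obtain ⟨hne, hd⟩ := h
    have hlt : p + p' < w := by omega
    set a := ((p : ℤ) - p').natAbs with ha
    set v := w - (p + p') with hv
    have h1 : e ∣ a * v := by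
      rw [fac w p p' (by omega) (by omega)] at hd
      rw [← Int.natCast_dvd_natCast]
      push_cast
      rw [ha, Int.natCast_natAbs, hv, Nat.cast_sub hlt.le]
      rcases abs_choice ((p : ℤ) - p') with h | h
      · rw [h]
        have e1 : (w : ℤ) - ((p + p' : ℕ) : ℤ) = (w : ℤ) - p - p' := by push_cast; ring
        rw [e1]; exact hd
      · rw [h]
        have e1 : -((p : ℤ) - p') * ((w : ℤ) - ((p + p' : ℕ) : ℤ)) =
            -(((p : ℤ) - p') * ((w : ℤ) - p - p')) := by push_cast; ring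
        rw [e1, dvd_neg]; exact hd
    have hg : 0 < Nat.gcd e a := Nat.gcd_pos_of_pos_left _ he
    have h2 : e / Nat.gcd e a ∣ v := by
      have hc := Nat.coprime_div_gcd_div_gcd hg
      refine hc.dvd_of_dvd_mul_left ?_
      obtain ⟨q, hq⟩ := h1
      refine ⟨q, ?_⟩
      apply Nat.eq_of_mul_eq_mul_left hg
      calc Nat.gcd e a * (a / Nat.gcd e a * v) = (Nat.gcd e a * (a / Nat.gcd e a)) * v := by ring
        _ = a * v := by rw [Nat.mul_div_cancel' (Nat.gcd_dvd_right e a)]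
        _ = e * q := hq
        _ = (Nat.gcd e a * (e / Nat.gcd e a)) * q := by
          rw [Nat.mul_div_cancel' (Nat.gcd_dvd_left e a)]
        _ = Nat.gcd e a * (e / Nat.gcd e a * q) := by ring
    have h3 : ((Nat.gcd e a : ℕ) : ℤ) ∣ (p : ℤ) - p' := by
      rw [← Int.dvd_natAbs, ← ha]
      exact_mod_cast Nat.gcd_dvd_right e a
    have hmem : Nat.gcd e a ∈ e.divisors := by
      rw [Nat.mem_divisors]
      exact ⟨Nat.gcd_dvd_left e a, he.ne'⟩
    refine le_trans ?_ (single_le_sum (f := fun d : ℕ => (if p ≠ p' ∧ (d : ℤ) ∣ (p : ℤ) - p' then (1 : ℝ) else 0) *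
        (if p + p' < w ∧ e / d ∣ w - (p + p') then (1 : ℝ) else 0)) (fun d _ => by positivity) hmem)
    rw [if_pos ⟨hne, h3⟩, if_pos ⟨hlt, h2⟩, one_mul]
  · exact sum_nonneg fun d _ => by positivity

/-- the number of the triples -/
theorem cnt_e (W P e : ℕ) (he : 0 < e) (h4 : 4 * P ≤ W) (s : Finset ℕ) (hs : s ⊆ Ioc (W / 2) W) :
    ∑ w ∈ s, ∑ p ∈ Ioc (P / 2) P, ∑ p' ∈ Ioc (P / 2) P,
      (if p ≠ p' ∧ (e : ℤ) ∣ ((p * (w - p) : ℕ) : ℤ) - ((p' * (w - p') : ℕ) : ℤ) then (1 : ℝ) else 0) ≤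
      2 * (P : ℝ) ^ 2 * W * (e.divisors.card : ℝ) / e := by
  have he0 : (0 : ℝ) < e := by exact_mod_cast he
  have hPc : (((Ioc (P / 2) P).card : ℕ) : ℝ) ≤ P := by
    rw [Nat.card_Ioc]
    exact_mod_cast Nat.sub_le _ _
  calc _ ≤ ∑ w ∈ Ioc (W / 2) W, ∑ p ∈ Ioc (P / 2) P, ∑ p' ∈ Ioc (P / 2) P,
        ∑ d ∈ e.divisors, (if p ≠ p' ∧ (d : ℤ) ∣ (p : ℤ) - p' then (1 : ℝ) else 0) *
        (if p + p' < w ∧ e / d ∣ w - (p + p') then (1 : ℝ) else 0) := by
        refine le_trans (sum_le_sum_of_subset_of_nonneg hs fun w _ _ => sum_nonneg fun p _ =>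
          sum_nonneg fun p' _ => by positivity) ?_
        refine sum_le_sum fun w hw => sum_le_sum fun p hp => sum_le_sum fun p' hp' => ?_
        rw [mem_Ioc] at hw hp hp'
        exact ind_le W P e w p p' he h4 hw.1 hp.2 hp'.2
    _ = ∑ d ∈ e.divisors, ∑ p ∈ Ioc (P / 2) P, ∑ p' ∈ Ioc (P / 2) P,
        (if p ≠ p' ∧ (d : ℤ) ∣ (p : ℤ) - p' then (1 : ℝ) else 0) *
        ∑ w ∈ Ioc (W / 2) W, (if p + p' < w ∧ e / d ∣ w - (p + p') then (1 : ℝ) else 0) := by
        simp_rw [mul_sum]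
        rw [sum_comm]
        rw [sum_comm (s := e.divisors)]
        refine sum_congr rfl fun p _ => ?_
        rw [sum_comm, sum_comm (s := e.divisors)]
        refine sum_congr rfl fun p' _ => ?_
        rw [sum_comm]
    _ ≤ ∑ d ∈ e.divisors, ∑ p ∈ Ioc (P / 2) P, ∑ p' ∈ Ioc (P / 2) P,
        (if p ≠ p' ∧ (d : ℤ) ∣ (p : ℤ) - p' then (1 : ℝ) else 0) * (W / (e / d : ℕ)) := by
        refine sum_le_sum fun d _ => sum_le_sum fun p _ => sum_le_sum fun p' _ => ?_
        refine mul_le_mul_of_nonneg_left ?_ (by positivity)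
        have := cnt_w W (p + p') (e / d)
        rw [card_filter] at this
        push_cast at this
        exact this
    _ ≤ ∑ d ∈ e.divisors, ∑ p ∈ Ioc (P / 2) P, (2 * P / d : ℝ) * (W / (e / d : ℕ)) := by
        refine sum_le_sum fun d _ => sum_le_sum fun p hp => ?_
        rw [← sum_mul]
        refine mul_le_mul_of_nonneg_right ?_ (by positivity)
        rw [mem_Ioc] at hp
        have := cnt_p P p d hp.2
        rw [card_filter] at this
        push_cast at this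
        exact this
    _ ≤ ∑ d ∈ e.divisors, 2 * (P : ℝ) ^ 2 * W / e := by
        refine sum_le_sum fun d hd => ?_
        rw [Nat.mem_divisors] at hd
        have hd0 : 0 < d := Nat.pos_of_dvd_of_pos hd.1 he
        have hd0' : (0 : ℝ) < d := by exact_mod_cast hd0
        rw [sum_const, nsmul_eq_mul, Nat.cast_div hd.1 hd0'.ne']
        have e1 : (2 * P / d : ℝ) * (W / (e / d)) = 2 * P * W / e := by
          field_simp
        rw [e1]
        calc _ ≤ (P : ℝ) * (2 * P * W / e) := by gcongr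
          _ = _ := by ring
    _ = _ := by
        rw [sum_const, nsmul_eq_mul]
        ring

/-- splitting into residue classes -/
theorem res_w (w P e : ℕ) (he : 0 < e) (hw : P ≤ w) (c : ℕ → ℝ) :
    |∑ p ∈ Ioc (P / 2) P, ∑ p' ∈ Ioc (P / 2) P,
      (if (e : ℤ) ∣ ((p * (w - p) : ℕ) : ℤ) - ((p' * (w - p') : ℕ) : ℤ) then c p * c p' else 0)| ≤
      e * ∑ b ∈ range e, (∑ p ∈ (Ioc (P / 2) P).filter (fun p => p % e = b), c p) ^ 2 := by
  set Q := Ioc (P / 2) P with hQ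
  set χ : ℕ → ℕ → Prop := fun b b' => (e : ℤ) ∣ (b : ℤ) * (w - b) - b' * (w - b') with hχ
  have hmod : ∀ p ∈ Q, ∀ p' ∈ Q, ((e : ℤ) ∣ ((p * (w - p) : ℕ) : ℤ) - ((p' * (w - p') : ℕ) : ℤ) ↔
      χ (p % e) (p' % e)) := by
    intro p hp p' hp'
    rw [hQ, mem_Ioc] at hp hp'
    have key : ∀ q : ℕ, q ≤ w → ((q * (w - q) : ℕ) : ℤ) ≡ ((q % e : ℕ) : ℤ) * (w - (q % e : ℕ)) [ZMOD e] := by
      intro q hq
      rw [Nat.cast_mul, Nat.cast_sub hq]
      have h1 : (q : ℤ) ≡ ((q % e : ℕ) : ℤ) [ZMOD e] := by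
        rw [Int.natCast_mod]
        exact (Int.mod_modEq _ _).symm
      exact Int.ModEq.mul h1 (Int.ModEq.sub_left _ h1)
    have k1 := key p (by omega)
    have k2 := key p' (by omega)
    have k3 := k1.sub k2
    simp only [hχ]
    rw [← Int.modEq_zero_iff_dvd, ← Int.modEq_zero_iff_dvd]
    exact ⟨fun h => k3.symm.trans h, fun h => k3.trans h⟩
  classical
  have e1 : ∑ p ∈ Q, ∑ p' ∈ Q,
      (if (e : ℤ) ∣ ((p * (w - p) : ℕ) : ℤ) - ((p' * (w - p') : ℕ) : ℤ) then c p * c p' else 0) =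
      ∑ b ∈ range e, ∑ b' ∈ range e, if χ b b' then
        (∑ p ∈ Q.filter (fun p => p % e = b), c p) * (∑ p ∈ Q.filter (fun p => p % e = b'), c p) else 0 := by
    have hmaps : ∀ p ∈ Q, p % e ∈ range e := fun p _ => mem_range.2 (Nat.mod_lt _ he)
    rw [← sum_fiberwise_of_maps_to hmaps]
    refine sum_congr rfl fun b _ => ?_
    have e2 : ∀ p ∈ Q.filter (fun p => p % e = b), ∑ p' ∈ Q,
        (if (e : ℤ) ∣ ((p * (w - p) : ℕ) : ℤ) - ((p' * (w - p') : ℕ) : ℤ) then c p * c p' else 0) =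
        ∑ b' ∈ range e, ∑ p' ∈ Q.filter (fun p' => p' % e = b'), if χ b b' then c p * c p' else 0 := by
      intro p hp
      rw [mem_filter] at hp
      rw [← sum_fiberwise_of_maps_to hmaps]
      refine sum_congr rfl fun b' _ => sum_congr rfl fun p' hp' => ?_
      rw [mem_filter] at hp'
      have := hmod p hp.1 p' hp'.1
      rw [hp.2, hp'.2] at this
      simp only [this]
    rw [sum_congr rfl e2, sum_comm]
    refine sum_congr rfl fun b' _ => ?_
    split_ifs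
    · rw [sum_mul_sum]
    · simp
  rw [e1]
  calc _ ≤ ∑ b ∈ range e, ∑ b' ∈ range e,
        |∑ p ∈ Q.filter (fun p => p % e = b), c p| * |∑ p ∈ Q.filter (fun p => p % e = b'), c p| := by
        refine (abs_sum_le_sum_abs _ _).trans (sum_le_sum fun b _ => ?_)
        refine (abs_sum_le_sum_abs _ _).trans (sum_le_sum fun b' _ => ?_)
        split_ifs
        · rw [abs_mul]
        · rw [abs_zero]; positivity
    _ = (∑ b ∈ range e, |∑ p ∈ Q.filter (fun p => p % e = b), c p|) ^ 2 := by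
        rw [sq, sum_mul_sum]
    _ ≤ (range e).card * ∑ b ∈ range e, |∑ p ∈ Q.filter (fun p => p % e = b), c p| ^ 2 :=
        sq_sum_le_card_mul_sum_sq
    _ = _ := by
        rw [card_range]
        simp_rw [sq_abs]

end Pool.Agent.L7h30.TS
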