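import Pool.Agent.L7h88.TS.Stm
import Pool.Agent.L7h30.TS.V2a
import Pool.Agent.L7h50.TS.V1

/-!
# V2 of project TS: the main inequality
-/

set_option autoImplicit false

namespace Pool.Agent.L7h30.TS

open Finset Pool.Agent.L7h88.TS
open Pool.Agent.H373R2.T7 (lamz Vz pz)
open Pool.Agent.H807R2.Dav (ee)

theorem Ez_prime {z e : ℕ} (he : e ∈ Ez z) : ∀ l ∈ e.primeFactors, 3 ≤ l := by
  intro l hl
  rw [Nat.mem_primeFactors] at hl
  unfold Ez at he
  rw [Nat.mem_divisors] at he
  have h1 : l ∣ ∏ l ∈ (pz z).erase 2, l := hl.2.1.trans he.1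
  rw [hl.1.prime.dvd_finsetProd_iff] at h1
  obtain ⟨q, hq, hlq⟩ := h1
  rw [mem_erase, Pool.Agent.H373R2.T7.mem_pz] at hq
  have : l = q := (Nat.prime_dvd_prime_iff_eq hl.1 hq.2.2).1 hlq
  have h2 := hl.1.two_le
  have h3 := hq.1
  omega

theorem kap_nonneg {z e : ℕ} (he : e ∈ Ez z) : 0 ≤ kap e := by
  unfold kap
  refine prod_nonneg fun l hl => ?_
  have : (3 : ℝ) ≤ l := by exact_mod_cast Ez_prime he l hl
  have h2 : (0 : ℝ) < l - 2 := by linarith
  positivity

theorem kap_le_one {z e : ℕ} (he : e ∈ Ez z) : kap e ≤ 1 := by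
  unfold kap
  refine prod_le_one (fun l hl => ?_) fun l hl => ?_
  · have : (3 : ℝ) ≤ l := by exact_mod_cast Ez_prime he l hl
    have h2 : (0 : ℝ) < l - 2 := by linarith
    positivity
  · have : (3 : ℝ) ≤ l := by exact_mod_cast Ez_prime he l hl
    rw [div_le_one (by linarith)]
    linarith

theorem Ez_pos {z e : ℕ} (he : e ∈ Ez z) : 0 < e := by
  unfold Ez at he
  exact Nat.pos_of_mem_divisors he

set_option maxHeartbeats 4000000 in
theorem V2_core (X W P z : ℕ) (L E₀ G κ er : ℝ) (h8 : 8 * (W * P) ≤ X) (h4 : 4 * P ≤ W) (hP : 4 ≤ P)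
    (hL : 1 ≤ L) (hE₀ : 1 ≤ E₀) (her : 0 ≤ er) (hG : 0 ≤ G)
    (hc : ∀ w p : ℕ, w ≤ W → p ≤ P → |lp p * gz z (w - p)| ≤ 2 * L ^ 2)
    (hlz : ∀ m : ℕ, lamz z m ≤ L)
    (hcor : ∀ u u' : ℕ, u % 2 = 1 → u' % 2 = 1 → u ≤ X / 8 → u' ≤ X / 8 → u ≠ u' →
      (4 : ℤ) ∣ (u : ℤ) - u' →
      |∑ n ∈ (Ioc (X / 2) X).filter (fun n => n % 2 = 1), ev (lamz z) (n - u) * ev (lamz z) (n - u') -
        X / 4 * Cz z * ∑ e ∈ (Ez z).filter (fun e : ℕ => (e : ℤ) ∣ (u : ℤ) - u'), kap e| ≤ er)
    (hCz : 0 ≤ Cz z) (hCz2 : Cz z ≤ 2)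
    (hkap : ∑ e ∈ (Ez z).filter (fun e : ℕ => E₀ < e), kap e * (e.divisors.card : ℝ) / e ≤ κ)
    (hgold : ∀ e : ℕ, 1 ≤ e → (e : ℝ) ≤ E₀ → ∑ b ∈ range e, ∑ w ∈ Ioc (W / 2) W,
      (∑ p ∈ (Ioc (P / 2) P).filter (fun p => p % e = b), lp p * gz z (w - p)) ^ 2 ≤ G) :
    ∑ w ∈ (Ioc (W / 2) W).filter (fun w => w % 2 = 0), ∑ n ∈ (Ioc (X / 2) X).filter (fun n => n % 2 = 1),
      tri lp (gz z) (lamz z) P n w ^ 2 ≤
      (W : ℝ) * P * (4 * L ^ 4) * (X * L ^ 2) + W * (P : ℝ) ^ 2 * (4 * L ^ 4) * er +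
        X / 2 * ((4 * L ^ 4) * (2 * (P : ℝ) ^ 2 * W) * κ + E₀ ^ 2 * G) := by
  classical
  set Q := Ioc (P / 2) P with hQ
  set N := (Ioc (X / 2) X).filter (fun n => n % 2 = 1) with hN
  set s := (Ioc (W / 2) W).filter (fun w => w % 2 = 0) with hs
  set c : ℕ → ℕ → ℝ := fun w p => lp p * gz z (w - p) with hcdef
  set h : ℕ → ℕ → ℕ → ℝ := fun w p n => ev (lamz z) (n - p * (w - p)) with hh
  set K2 : ℝ := 4 * L ^ 4 with hK2
  have hK20 : 0 ≤ K2 := by positivity
  have hQc : ((Q.card : ℕ) : ℝ) ≤ P := by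
    rw [hQ, Nat.card_Ioc]; exact_mod_cast Nat.sub_le _ _
  have hNc : ((N.card : ℕ) : ℝ) ≤ X := by
    have : N.card ≤ (Ioc (X / 2) X).card := card_filter_le _ _
    rw [Nat.card_Ioc] at this
    exact_mod_cast this.trans (Nat.sub_le _ _)
  have hsc : ((s.card : ℕ) : ℝ) ≤ W := by
    have : s.card ≤ (Ioc (W / 2) W).card := card_filter_le _ _
    rw [Nat.card_Ioc] at this
    exact_mod_cast this.trans (Nat.sub_le _ _)
  have hsw : ∀ w ∈ s, W / 2 < w ∧ w ≤ W ∧ w % 2 = 0 := by
    intro w hw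
    rw [hs, mem_filter, mem_Ioc] at hw
    exact ⟨hw.1.1, hw.1.2, hw.2⟩
  have hQp : ∀ p ∈ Q, P / 2 < p ∧ p ≤ P := fun p hp => by rw [hQ, mem_Ioc] at hp; exact hp
  have hcc : ∀ w ∈ s, ∀ p ∈ Q, ∀ p' ∈ Q, |c w p * c w p'| ≤ K2 := by
    intro w hw p hp p' hp'
    rw [abs_mul]
    calc _ ≤ (2 * L ^ 2) * (2 * L ^ 2) := by
          refine mul_le_mul (hc w p (hsw w hw).2.1 (hQp p hp).2)
            (hc w p' (hsw w hw).2.1 (hQp p' hp').2) (abs_nonneg _) (by positivity)
      _ = K2 := by rw [hK2]; ring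
  have hev : ∀ m : ℕ, 0 ≤ ev (lamz z) m ∧ ev (lamz z) m ≤ L := by
    intro m
    unfold ev
    split_ifs
    · exact ⟨Pool.Agent.H373R2.T7.lamz_nonneg _ _, hlz _⟩
    · exact ⟨le_rfl, by linarith⟩
  -- the pointwise bound
  set u : ℕ → ℕ → ℕ := fun w p => p * (w - p) with hu
  set T : ℕ → ℕ → ℕ → ℝ := fun w p p' => ∑ n ∈ N, h w p n * h w p' n with hT
  set Sg : ℕ → ℕ → ℕ → ℝ := fun w p p' =>
    ∑ e ∈ (Ez z).filter (fun e : ℕ => (e : ℤ) ∣ (u w p : ℤ) - u w p'), kap e with hSg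
  have hpt : ∀ w ∈ s, ∀ p ∈ Q, ∀ p' ∈ Q, c w p * c w p' * T w p p' ≤
      (if p = p' then K2 * (X * L ^ 2) else 0) + K2 * er +
        X / 4 * Cz z * (if p ≠ p' then c w p * c w p' * Sg w p p' else 0) := by
    intro w hw p hp p' hp'
    obtain ⟨hw1, hw2, hw3⟩ := hsw w hw
    obtain ⟨hp1, hp2⟩ := hQp p hp
    obtain ⟨hp1', hp2'⟩ := hQp p' hp'
    have hKer : 0 ≤ K2 * er := mul_nonneg hK20 her
    by_cases he : p = p'
    · subst he
      rw [if_pos rfl, if_neg (by simp), mul_zero, add_zero]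
      have h1 : 0 ≤ T w p p := sum_nonneg fun n _ => mul_nonneg (hev _).1 (hev _).1
      have h2 : T w p p ≤ X * L ^ 2 := by
        calc T w p p ≤ ∑ n ∈ N, L ^ 2 := by
              refine sum_le_sum fun n _ => ?_
              rw [sq]
              exact mul_le_mul (hev _).2 (hev _).2 (hev _).1 (by linarith)
          _ = N.card * L ^ 2 := by rw [sum_const, nsmul_eq_mul]
          _ ≤ X * L ^ 2 := by gcongr
      have h3 : c w p * c w p * T w p p ≤ K2 * (X * L ^ 2) :=
        mul_le_mul ((le_abs_self _).trans (hcc w hw p hp p hp)) h2 h1 hK20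
      linarith
    · rw [if_neg he, if_pos he, zero_add]
      by_cases hpp : p.Prime ∧ p'.Prime
      · have hodd : p % 2 = 1 := by
          rcases hpp.1.eq_two_or_odd with h | h
          · omega
          · exact h
        have hodd' : p' % 2 = 1 := by
          rcases hpp.2.eq_two_or_odd with h | h
          · omega
          · exact h
        have hu1 : ∀ q : ℕ, q % 2 = 1 → q ≤ P → (u w q) % 2 = 1 ∧ u w q ≤ X / 8 := by
          intro q hq hqP
          refine ⟨?_, ?_⟩
          · simp only [hu]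
            rw [Nat.mul_mod, hq]
            have : (w - q) % 2 = 1 := by omega
            rw [this]
          · simp only [hu]
            rw [Nat.le_div_iff_mul_le (by norm_num)]
            calc q * (w - q) * 8 ≤ P * W * 8 := by
                  gcongr
                  omega
              _ = 8 * (W * P) := by ring
              _ ≤ X := h8
        have hfac := fac w p p' (by omega) (by omega)
        have hne : u w p ≠ u w p' := by
          intro h
          have h0 : ((p : ℤ) - p') * ((w : ℤ) - p - p') = 0 := by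
            rw [← hfac]
            simp only [hu] at h
            rw [h, sub_self]
          rcases mul_eq_zero.1 h0 with h | h
          · apply he; omega
          · omega
        have hd4 : (4 : ℤ) ∣ (u w p : ℤ) - u w p' := by
          have e0 : (u w p : ℤ) - u w p' = ((p : ℤ) - p') * ((w : ℤ) - p - p') := hfac
          rw [e0]
          have h1 : (2 : ℤ) ∣ (p : ℤ) - p' := by omega
          have h2 : (2 : ℤ) ∣ (w : ℤ) - p - p' := by omega
          exact mul_dvd_mul h1 h2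
        have hmain := hcor (u w p) (u w p') (hu1 p hodd hp2).1 (hu1 p' hodd' hp2').1
          (hu1 p hodd hp2).2 (hu1 p' hodd' hp2').2 hne hd4
        have e1 : c w p * c w p' * T w p p' = c w p * c w p' * (T w p p' - X / 4 * Cz z * Sg w p p') +
            X / 4 * Cz z * (c w p * c w p' * Sg w p p') := by ring
        rw [e1]
        have h5 : c w p * c w p' * (T w p p' - X / 4 * Cz z * Sg w p p') ≤ K2 * er := by
          refine (le_abs_self _).trans ?_
          rw [abs_mul]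
          exact mul_le_mul (hcc w hw p hp p' hp') hmain (abs_nonneg _) hK20
        linarith
      · have h0 : c w p * c w p' = 0 := by
          simp only [hcdef, Pool.Agent.L7h88.TS.lp]
          by_cases h1 : p.Prime
          · have h2 : ¬ p'.Prime := fun h => hpp ⟨h1, h⟩
            simp [h2]
          · simp [h1]
        rw [h0]
        simp
        exact hKer
  -- expansion
  have hexp : ∀ w ∈ s, ∑ n ∈ N, tri lp (gz z) (lamz z) P n w ^ 2 =
      ∑ p ∈ Q, ∑ p' ∈ Q, c w p * c w p' * T w p p' := by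
    intro w _
    have e1 : ∀ n ∈ N, tri lp (gz z) (lamz z) P n w ^ 2 =
        ∑ p ∈ Q, ∑ p' ∈ Q, c w p * c w p' * (h w p n * h w p' n) := by
      intro n _
      unfold tri
      rw [sq, sum_mul_sum]
      refine sum_congr rfl fun p _ => sum_congr rfl fun p' _ => ?_
      simp only [hcdef, hh]
      ring
    rw [sum_congr rfl e1, sum_comm]
    refine sum_congr rfl fun p _ => ?_
    rw [sum_comm]
    refine sum_congr rfl fun p' _ => ?_
    rw [hT, mul_sum]
  -- the sum over `e`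
  set D : ℕ → ℝ := fun e => ∑ w ∈ s, ∑ p ∈ Q, ∑ p' ∈ Q,
    (if p ≠ p' ∧ (e : ℤ) ∣ (u w p : ℤ) - u w p' then c w p * c w p' else 0) with hD
  have hDsum : ∑ w ∈ s, ∑ p ∈ Q, ∑ p' ∈ Q, (if p ≠ p' then c w p * c w p' * Sg w p p' else 0) =
      ∑ e ∈ Ez z, kap e * D e := by
    simp only [hD, mul_sum]
    rw [sum_comm (s := Ez z)]
    refine sum_congr rfl fun w _ => ?_
    rw [sum_comm (s := Ez z)]
    refine sum_congr rfl fun p _ => ?_
    rw [sum_comm (s := Ez z)]
    refine sum_congr rfl fun p' _ => ?_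
    by_cases he : p = p'
    · subst he; simp
    · rw [if_pos he, hSg]
      simp only
      rw [mul_sum, sum_filter]
      refine sum_congr rfl fun e _ => ?_
      by_cases h1 : (e : ℤ) ∣ (u w p : ℤ) - u w p'
      · rw [if_pos h1, if_pos ⟨he, h1⟩]; ring
      · rw [if_neg h1, if_neg (fun h => h1 h.2), mul_zero]
  have hD1 : ∀ e ∈ Ez z, D e ≤ K2 * (2 * (P : ℝ) ^ 2 * W * (e.divisors.card : ℝ) / e) := by
    intro e he
    have h1 := cnt_e W P e (Ez_pos he) h4 s (filter_subset _ _)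
    calc D e ≤ ∑ w ∈ s, ∑ p ∈ Q, ∑ p' ∈ Q,
          K2 * (if p ≠ p' ∧ (e : ℤ) ∣ (u w p : ℤ) - u w p' then (1 : ℝ) else 0) := by
          refine sum_le_sum fun w hw => sum_le_sum fun p hp => sum_le_sum fun p' hp' => ?_
          split_ifs
          · rw [mul_one]; exact (le_abs_self _).trans (hcc w hw p hp p' hp')
          · rw [mul_zero]
      _ = K2 * ∑ w ∈ s, ∑ p ∈ Q, ∑ p' ∈ Q,
          (if p ≠ p' ∧ (e : ℤ) ∣ (u w p : ℤ) - u w p' then (1 : ℝ) else 0) := by
          simp_rw [mul_sum]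
      _ ≤ _ := mul_le_mul_of_nonneg_left h1 hK20
  have hD2 : ∀ e ∈ Ez z, (e : ℝ) ≤ E₀ → D e ≤ E₀ * G := by
    intro e he heE
    have he0 := Ez_pos he
    have h1 : D e ≤ ∑ w ∈ s, |∑ p ∈ Q, ∑ p' ∈ Q,
        (if (e : ℤ) ∣ ((p * (w - p) : ℕ) : ℤ) - ((p' * (w - p') : ℕ) : ℤ) then c w p * c w p' else 0)| := by
      refine sum_le_sum fun w hw => ?_
      refine le_trans ?_ (le_abs_self _)
      refine sum_le_sum fun p hp => sum_le_sum fun p' hp' => ?_
      by_cases h1 : (e : ℤ) ∣ (u w p : ℤ) - u w p'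
      · have h1' : (e : ℤ) ∣ ((p * (w - p) : ℕ) : ℤ) - ((p' * (w - p') : ℕ) : ℤ) := h1
        rw [if_pos h1']
        by_cases hne : p = p'
        · subst hne
          rw [if_neg (by simp)]
          exact mul_self_nonneg _
        · rw [if_pos ⟨hne, h1⟩]
      · have h1' : ¬ (e : ℤ) ∣ ((p * (w - p) : ℕ) : ℤ) - ((p' * (w - p') : ℕ) : ℤ) := h1
        rw [if_neg h1', if_neg (fun h => h1 h.2)]
    have h2 : ∑ w ∈ s, |∑ p ∈ Q, ∑ p' ∈ Q,
        (if (e : ℤ) ∣ ((p * (w - p) : ℕ) : ℤ) - ((p' * (w - p') : ℕ) : ℤ) then c w p * c w p' else 0)| ≤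
        ∑ w ∈ s, (e : ℝ) * ∑ b ∈ range e, (∑ p ∈ Q.filter (fun p => p % e = b), c w p) ^ 2 := by
      refine sum_le_sum fun w hw => ?_
      have := hsw w hw
      exact res_w w P e he0 (by omega) (c w)
    have h3 : ∑ w ∈ s, (e : ℝ) * ∑ b ∈ range e, (∑ p ∈ Q.filter (fun p => p % e = b), c w p) ^ 2 ≤
        e * G := by
      rw [← mul_sum, sum_comm]
      refine mul_le_mul_of_nonneg_left ?_ (by positivity)
      refine le_trans ?_ (hgold e he0 heE)
      refine sum_le_sum fun b _ => ?_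
      exact sum_le_sum_of_subset_of_nonneg (filter_subset _ _) fun w _ _ => sq_nonneg _
    exact (h1.trans h2).trans (h3.trans (mul_le_mul_of_nonneg_right heE hG))
  have hE : ∑ e ∈ Ez z, kap e * D e ≤ K2 * (2 * (P : ℝ) ^ 2 * W) * κ + E₀ ^ 2 * G := by
    rw [← sum_filter_add_sum_filter_not (Ez z) (fun e : ℕ => E₀ < e)]
    refine add_le_add ?_ ?_
    · calc _ ≤ ∑ e ∈ (Ez z).filter (fun e : ℕ => E₀ < e), kap e *
            (K2 * (2 * (P : ℝ) ^ 2 * W * (e.divisors.card : ℝ) / e)) := by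
            refine sum_le_sum fun e he => ?_
            rw [mem_filter] at he
            exact mul_le_mul_of_nonneg_left (hD1 e he.1) (kap_nonneg he.1)
        _ = K2 * (2 * (P : ℝ) ^ 2 * W) *
            ∑ e ∈ (Ez z).filter (fun e : ℕ => E₀ < e), kap e * (e.divisors.card : ℝ) / e := by
            rw [mul_sum]
            refine sum_congr rfl fun e _ => ?_
            ring
        _ ≤ _ := mul_le_mul_of_nonneg_left hkap (by positivity)
    · calc _ ≤ ∑ e ∈ (Ez z).filter (fun e : ℕ => ¬ E₀ < e), E₀ * G := by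
            refine sum_le_sum fun e he => ?_
            rw [mem_filter] at he
            have h1 := hD2 e he.1 (not_lt.1 he.2)
            have h2 := kap_nonneg he.1
            have h3 := kap_le_one he.1
            have h4 : 0 ≤ E₀ * G := mul_nonneg (by linarith) hG
            calc kap e * D e ≤ kap e * (E₀ * G) := mul_le_mul_of_nonneg_left h1 h2
              _ ≤ 1 * (E₀ * G) := mul_le_mul_of_nonneg_right h3 h4
              _ = _ := one_mul _
        _ = (((Ez z).filter (fun e : ℕ => ¬ E₀ < e)).card : ℝ) * (E₀ * G) := by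
            rw [sum_const, nsmul_eq_mul]
        _ ≤ E₀ * (E₀ * G) := by
            refine mul_le_mul_of_nonneg_right ?_ (mul_nonneg (by linarith) hG)
            have h1 : (Ez z).filter (fun e : ℕ => ¬ E₀ < e) ⊆ Icc 1 ⌊E₀⌋₊ := by
              intro e he
              rw [mem_filter] at he
              rw [mem_Icc]
              exact ⟨Ez_pos he.1, Nat.le_floor (not_lt.1 he.2)⟩
            have h2 := card_le_card h1
            rw [Nat.card_Icc, Nat.add_sub_cancel] at h2
            exact (Nat.cast_le.2 h2).trans (Nat.floor_le (by linarith))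
        _ = _ := by ring
  -- conclusion
  calc _ = ∑ w ∈ s, ∑ p ∈ Q, ∑ p' ∈ Q, c w p * c w p' * T w p p' := sum_congr rfl hexp
    _ ≤ ∑ w ∈ s, ∑ p ∈ Q, ∑ p' ∈ Q, ((if p = p' then K2 * (X * L ^ 2) else 0) + K2 * er +
        X / 4 * Cz z * (if p ≠ p' then c w p * c w p' * Sg w p p' else 0)) :=
        sum_le_sum fun w hw => sum_le_sum fun p hp => sum_le_sum fun p' hp' => hpt w hw p hp p' hp'
    _ = ∑ w ∈ s, ∑ p ∈ Q, ∑ p' ∈ Q, (if p = p' then K2 * (X * L ^ 2) else 0) +
        ∑ w ∈ s, ∑ p ∈ Q, ∑ p' ∈ Q, K2 * er +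
        X / 4 * Cz z * ∑ e ∈ Ez z, kap e * D e := by
        rw [← hDsum]
        simp_rw [sum_add_distrib, mul_sum]
    _ ≤ (W : ℝ) * P * K2 * (X * L ^ 2) + W * (P : ℝ) ^ 2 * K2 * er +
        X / 2 * (K2 * (2 * (P : ℝ) ^ 2 * W) * κ + E₀ ^ 2 * G) := by
        refine add_le_add (add_le_add ?_ ?_) ?_
        · calc _ = ∑ w ∈ s, ∑ p ∈ Q, K2 * (X * L ^ 2) := by
                refine sum_congr rfl fun w _ => sum_congr rfl fun p hp => ?_
                rw [sum_ite_eq, if_pos hp]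
            _ = s.card * (Q.card * (K2 * (X * L ^ 2))) := by
                rw [sum_const, sum_const, nsmul_eq_mul, nsmul_eq_mul]
            _ ≤ W * (P * (K2 * (X * L ^ 2))) := by gcongr
            _ = _ := by ring
        · calc _ = (s.card : ℝ) * (Q.card * (Q.card * (K2 * er))) := by
                rw [sum_const, sum_const, sum_const, nsmul_eq_mul, nsmul_eq_mul, nsmul_eq_mul]
            _ ≤ W * (P * (P * (K2 * er))) := by gcongr
            _ = _ := by ring
        · have hX : (0 : ℝ) ≤ X / 4 * Cz z := by positivity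
          have h1 := mul_le_mul_of_nonneg_left hE hX
          refine h1.trans ?_
          have hpos : 0 ≤ K2 * (2 * (P : ℝ) ^ 2 * W) * κ + E₀ ^ 2 * G := by
            have : 0 ≤ κ := by
              refine le_trans (sum_nonneg fun e he => ?_) hkap
              rw [mem_filter] at he
              have := kap_nonneg he.1
              positivity
            positivity
          refine mul_le_mul_of_nonneg_right ?_ hpos
          have hX0 : (0 : ℝ) ≤ X := Nat.cast_nonneg _
          nlinarith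

end Pool.Agent.L7h30.TS
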